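import Pool.Agent.H407.Edr.Fin

/-!
# MP_d1604f_al: elementary divisor rings and passage to the perfection (Q1 disproved)

For every prime `p` there is a reduced Hermite ring `R` of characteristic `p` whose perfection is an
elementary divisor ring although `R` is not an elementary divisor ring.

Idea. Fix a field `k` of characteristic `p` with a surjective homomorphism `v` from its unit group
onto the additive group `ℤ_(p)` (Hahn series). Consider countable rings `B` of characteristic `p`
with two points `t₁, t₂ : B → k` such that `v (t₁ u) = v (t₂ u)` for all units `u` of `B`. This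
property survives the adjunction of a universal solution of the Hermite problem for two elements
of `B`, and, for every unimodular triangular matrix `A` over `B`, the adjunction of a universal
solution of `r A^(N) s = 1` for a suitable power `N` of `p` (`A^(N)`: entries raised to the power
`N`). The union `R` of a chain of such extensions is Hermite, its perfection satisfies the
criterion of Kaplansky, and a `p`-torsion line bundle of the first ring of the chain stays
non-trivial, so that `[[a, b], [0, c]]` has no diagonal reduction over `R`.
-/

set_option autoImplicit false

namespace Pool.Agent.Results.MP_d1604f_al.PerfectionDoesNotDescend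

/-- `A` admits diagonal reduction: there are invertible matrices `P`, `Q` such that `P A Q` is zero
off the main diagonal, and its diagonal entries satisfy `d_i ∣ d_{i+1}` for all `i`. -/
def AdmitsDiagonalReduction {R : Type} [CommRing R] {m n : ℕ} (A : Matrix (Fin m) (Fin n) R) :
    Prop :=
  ∃ (P : Matrix (Fin m) (Fin m) R) (Q : Matrix (Fin n) (Fin n) R), IsUnit P ∧ IsUnit Q ∧
    (∀ (i : Fin m) (j : Fin n), (i : ℕ) ≠ (j : ℕ) → (P * A * Q) i j = 0) ∧
    (∀ (i i' : Fin m) (j j' : Fin n), (i : ℕ) = j → (i' : ℕ) = j' → (i' : ℕ) = i + 1 →
      (P * A * Q) i j ∣ (P * A * Q) i' j')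

/-- Hermite ring: every `1 × 2` matrix admits diagonal reduction. -/
def HermiteRing (R : Type) [CommRing R] : Prop :=
  ∀ A : Matrix (Fin 1) (Fin 2) R, AdmitsDiagonalReduction A

/-- Elementary divisor ring: every matrix, of any size, admits diagonal reduction. -/
def ElementaryDivisorRing (R : Type) [CommRing R] : Prop :=
  ∀ (m n : ℕ) (A : Matrix (Fin m) (Fin n) R), AdmitsDiagonalReduction A

/-- **Q1 of MP_d1604f_al has a negative answer, in every prime characteristic.**
`PerfectClosure R p` is the direct limit of `R → R → R → ⋯` along the Frobenius. -/
theorem result (p : ℕ) [Fact p.Prime] :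
    ∃ (R : Type) (_ : CommRing R) (_ : CharP R p),
      IsReduced R ∧ HermiteRing R ∧ ElementaryDivisorRing (PerfectClosure R p) ∧
        ¬ ElementaryDivisorRing R :=
  Pool.Agent.H407.Edr.main p

end Pool.Agent.Results.MP_d1604f_al.PerfectionDoesNotDescend
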